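import Pool.Agent.N206.CG.Stm2

/-!
Project CG (helper206), leaf WOUT: finiteness of the outer automorphism group of the wreath product.
-/

namespace Pool.Agent.N773.CG

open Pool.Agent.N206.CG

theorem wact_sgl {G : Type} [Group G] {U : Subgroup G} (g : G) (z : G ⧸ U) (a : A5) :
    wact G (G ⧸ U) A5 g (sgl z a) = sgl (g • z) a := by
  apply Subtype.ext
  funext y
  have e1 : ((wact G (G ⧸ U) A5 g (sgl z a)) : G ⧸ U → A5) y = (sgl z a : FS (G ⧸ U) A5).1 (g⁻¹ • y) := rfl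
  rw [e1]
  simp only [sgl]
  by_cases h : y = g • z
  · rw [if_pos h, if_pos (inv_smul_eq_iff.2 h)]
  · rw [if_neg h, if_neg (fun h' => h (inv_smul_eq_iff.1 h'))]

theorem conj_inr_inl {G : Type} [Group G] {U : Subgroup G} (g : G) (z : G ⧸ U) (a : A5) :
    (MulAut.conj (SemidirectProduct.inr g : Wr G U)) (SemidirectProduct.inl (sgl z a)) =
      SemidirectProduct.inl (sgl (g • z) a) := by
  rw [← wact_sgl, SemidirectProduct.inl_aut]
  rw [MulAut.conj_apply, map_inv]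

theorem mem_iff {G : Type} [Group G] (U : Subgroup G) (h : G) :
    h ∈ U ↔ h • ((1 : G) : G ⧸ U) = ((1 : G) : G ⧸ U) := by
  rw [MulAction.Quotient.smul_coe, smul_eq_mul, mul_one, eq_comm, QuotientGroup.eq, inv_one, one_mul]

theorem t_WOUT (G : Type) [Group G] (U : Subgroup G) (h1 : S_W3 G U) (h2 : S_W4 G U)
    (h3 : S_W5 G U) (h4 : S_W6 G U) (_h5 : S_WEXT G U) : S_WOUT G U := by
  rintro hcore hN ⟨F, hF, hFU, hFA⟩ hAI
  have hΦ := fun u : F => h2 u.1 (hFU u.1 u.2)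
  choose Φ Φr Φw Φs using hΦ
  choose Ψ Ψr Ψw Ψs using h3
  have claim : ∀ θ : MulAut (Wr G U), ∃ (w : Wr G U) (ψ : MulAut A5) (u : F),
      θ = MulAut.conj w * Ψ ψ * Φ u := by
    intro θ
    obtain ⟨π, f, φ, hπ1, hπ2, hπ3⟩ := h1 hcore θ
    obtain ⟨g0, hg0⟩ : ∃ g0 : G, g0 • π ((1 : G) : G ⧸ U) = ((1 : G) : G ⧸ U) :=
      MulAction.exists_smul_eq G _ _
    have hpz : π ((1 : G) : G ⧸ U) = g0⁻¹ • ((1 : G) : G ⧸ U) := by
      rw [← hg0, inv_smul_smul]
      rw [hg0]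
    have hmem : ∀ h, h ∈ U ↔ (MulAut.conj g0 * φ) h ∈ U := by
      intro h
      rw [mem_iff, mem_iff, ← π.injective.eq_iff, hπ3, hpz, MulAut.mul_apply, MulAut.conj_apply,
        mul_smul, mul_smul, ← inv_smul_eq_iff (g := g0⁻¹), inv_inv]
    obtain ⟨u, hu, d, hd⟩ := hFA _ hmem
    have hdU : d ∈ U := by
      apply hN
      intro h
      have e1 := hmem (u⁻¹ h)
      have e2 := hFU u hu (u⁻¹ h)
      rw [MulAut.apply_inv_self] at e2
      rw [hd, MulAut.mul_apply, MulAut.apply_inv_self, MulAut.conj_apply] at e1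
      exact e2.symm.trans e1
    have hd' : ∀ g, g0 * φ g * g0⁻¹ = d * u g * d⁻¹ := by
      intro g
      have := DFunLike.congr_fun hd g
      simpa [MulAut.mul_apply, MulAut.conj_apply] using this
    have hinv1 : ∀ (g : G) (a : A5), (Φ ⟨u, hu⟩)⁻¹ (SemidirectProduct.inl (sgl ((g : G) : G ⧸ U) a)) =
        SemidirectProduct.inl (sgl ((u⁻¹ g : G) : G ⧸ U) a) := by
      intro g a
      have e := Φs ⟨u, hu⟩ (u⁻¹ g) a
      simp only [MulAut.apply_inv_self] at e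
      rw [← e, MulAut.inv_apply_self]
    have hinv2 : ∀ w, ((Φ ⟨u, hu⟩)⁻¹ w).right = u⁻¹ w.right := by
      intro w
      have e := Φw ⟨u, hu⟩ ((Φ ⟨u, hu⟩)⁻¹ w)
      rw [MulAut.apply_inv_self] at e
      rw [e]
      simp
    have hq1 : ∀ z : G ⧸ U, ((z.out : G) : G ⧸ U) = z := fun z => QuotientGroup.out_eq' z
    have A := h4 hAI (MulAut.conj (SemidirectProduct.inr (d⁻¹ * g0)) * θ * (Φ ⟨u, hu⟩)⁻¹)
      (fun z => f ((u⁻¹ z.out : G) : G ⧸ U)) ?_ ?_
    · obtain ⟨ψ, k, hk⟩ := A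
      have e := hk (Ψ ψ) (Ψr ψ) (Ψs ψ)
      refine ⟨(SemidirectProduct.inr (d⁻¹ * g0))⁻¹ * SemidirectProduct.inl k, ψ, ⟨u, hu⟩, ?_⟩
      rw [map_mul, map_inv, mul_assoc, mul_assoc, ← mul_assoc (MulAut.conj (SemidirectProduct.inl k)),
        ← e]
      group
    · intro z a
      have e0 : π ((u⁻¹ z.out : G) : G ⧸ U) = (φ (u⁻¹ z.out)) • g0⁻¹ • ((1 : G) : G ⧸ U) := by
        rw [← hpz, ← hπ3, MulAction.Quotient.smul_coe, smul_eq_mul, mul_one]
      have e1 : (d⁻¹ * g0) • π ((u⁻¹ z.out : G) : G ⧸ U) = z := by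
        rw [e0, smul_smul, smul_smul]
        have e2 : d⁻¹ * g0 * φ (u⁻¹ z.out) * g0⁻¹ = z.out * d⁻¹ := by
          have e3 := hd' (u⁻¹ z.out)
          rw [MulAut.apply_inv_self] at e3
          calc d⁻¹ * g0 * φ (u⁻¹ z.out) * g0⁻¹ = d⁻¹ * (g0 * φ (u⁻¹ z.out) * g0⁻¹) := by group
            _ = z.out * d⁻¹ := by rw [e3]; group
        rw [e2]
        rw [mul_smul, (mem_iff U d⁻¹).1 (U.inv_mem hdU), MulAction.Quotient.smul_coe, smul_eq_mul,
          mul_one, hq1]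
      rw [MulAut.mul_apply, MulAut.mul_apply]
      have e5 : (Φ ⟨u, hu⟩)⁻¹ (SemidirectProduct.inl (sgl z a)) =
          SemidirectProduct.inl (sgl ((u⁻¹ z.out : G) : G ⧸ U) a) := by
        have := hinv1 z.out a
        rwa [hq1] at this
      rw [e5, hπ1, conj_inr_inl, e1]
    · intro w
      rw [MulAut.mul_apply, MulAut.mul_apply, MulAut.conj_apply]
      rw [SemidirectProduct.mul_right, SemidirectProduct.mul_right, SemidirectProduct.inv_right,
        SemidirectProduct.right_inr, hπ2, hinv2]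
      have e3 := hd' (u⁻¹ w.right)
      rw [MulAut.apply_inv_self] at e3
      calc d⁻¹ * g0 * φ (u⁻¹ w.right) * (d⁻¹ * g0)⁻¹
          = d⁻¹ * (g0 * φ (u⁻¹ w.right) * g0⁻¹) * d := by group
        _ = w.right := by rw [e3]; group
  have : Finite F := hF
  have : Finite (MulAut A5) :=
    Finite.of_injective (fun e : MulAut A5 => (e : A5 → A5)) DFunLike.coe_injective
  refine Finite.of_surjective (fun x : MulAut A5 × F =>
    ((Ψ x.1 * Φ x.2 : MulAut (Wr G U)) :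
      MulAut (Wr G U) ⧸ (MulAut.conj : Wr G U →* MulAut (Wr G U)).range)) ?_
  intro q
  obtain ⟨θ, rfl⟩ := QuotientGroup.mk_surjective q
  obtain ⟨w, ψ, u, rfl⟩ := claim θ
  refine ⟨(ψ, u), ?_⟩
  rw [QuotientGroup.eq]
  refine ⟨(Ψ ψ * Φ u)⁻¹ w, ?_⟩
  apply MulEquiv.ext
  intro x
  simp [MulAut.mul_apply, MulAut.conj_apply]

end Pool.Agent.N773.CG
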